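import Pool.Agent.H24.DSep2

open Set Filter Topology Cardinal

namespace Pool.Agent.Results.MP_c7df87_gt.Exists

/-- Whyburn property: every `p ∈ closure A \ A` is the only new limit point of some `B ⊆ A`. -/
def Whyburn (X : Type) [TopologicalSpace X] : Prop :=
  ∀ A : Set X, ∀ p ∈ closure A \ A, ∃ B ⊆ A, closure B \ A = {p}

/-- d-separable: a dense union of countably many discrete subsets. -/
def dSep (X : Type) [TopologicalSpace X] : Prop :=
  ∃ E : ℕ → Set X, (∀ n, IsDiscrete (E n)) ∧ Dense (⋃ n, E n)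

/-- D-separable. -/
def DSep (X : Type) [TopologicalSpace X] : Prop :=
  ∀ D : ℕ → Set X, (∀ n, Dense (D n)) →
    ∃ F : ℕ → Set X, (∀ n, F n ⊆ D n ∧ IsDiscrete (F n)) ∧ Dense (⋃ n, F n)

theorem whyburn_of_frechet (X : Type) [TopologicalSpace X] [T2Space X] [FrechetUrysohnSpace X] :
    Whyburn X := by
  rintro A p ⟨hp, hpA⟩
  obtain ⟨x, hxA, hx⟩ := mem_closure_iff_seq_limit.1 hp
  refine ⟨range x, range_subset_iff.2 hxA, ?_⟩
  have hc : IsClosed (insert p (range x)) := hx.isCompact_insert_range.isClosed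
  ext y
  constructor
  · rintro ⟨hy, hyA⟩
    rcases closure_minimal (subset_insert _ _) hc hy with h | ⟨n, rfl⟩
    · exact h
    · exact (hyA (hxA n)).elim
  · rintro rfl
    exact ⟨mem_closure_of_tendsto hx (Eventually.of_forall fun n => mem_range_self n), hpA⟩

theorem result : ∃ (X : Type) (_ : TopologicalSpace X),
    T35Space X ∧ Whyburn X ∧ dSep X ∧ ¬ DSep X := by
  have := @Pool.Agent.H24.DS.frechet ℝ
  refine ⟨Pool.Agent.H24.DS.Sig ℝ, inferInstance, inferInstance, whyburn_of_frechet _,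
    Pool.Agent.H24.DS.dsep, Pool.Agent.H24.DS.not_DSep (by rw [Cardinal.mk_real]; exact continuum_power_aleph0)⟩

end Pool.Agent.Results.MP_c7df87_gt.Exists
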